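import Pool.Agent.Helper10.Qc.Stmts

set_option autoImplicit false

/-!
# Modules SUMA, SUMB: the accumulations
-/

namespace Pool.Agent.Helper10.Qc

open Pool.Agent.Helper19.Qh Pool.Agent.Helper19.Qc

theorem sumab_cond (b c : Bool) (h : cond b c false = true) : b = true ∧ c = true := by
  cases b
  · exact absurd h (by simp)
  · exact ⟨rfl, h⟩

theorem sumab_A (TT m : ℕ) (f : ℕ → ℕ → Bool) : ∀ (n code prev K S : ℕ),
    sumA TT m n code prev K S f = true → prev ≤ m ∧ ∃ l : List (ℕ × ℕ), l.length = n ∧
    (l.map Prod.fst).Pairwise (· < ·) ∧ (∀ x ∈ l, prev ≤ x.1 ∧ x.1 < m ∧ x.2 < 64) ∧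
    f (K + (l.map fun x => linI x.2).sum) (S + (l.map fun x => linA x.2 * big TT x.1).sum) =
      true := by
  intro n
  induction n with
  | zero =>
    intro code prev K S h
    unfold sumA at h
    obtain ⟨h1, h2⟩ := sumab_cond _ _ h
    refine ⟨Nat.le_of_ble_eq_true h1, [], rfl, List.Pairwise.nil, ?_, ?_⟩
    · intro x hx
      simp at hx
    · simpa using h2
  | succ n ih =>
    intro code prev K S h
    unfold sumA at h
    obtain ⟨h1, h2⟩ := sumab_cond _ _ h
    obtain ⟨h3, l, hl1, hl2, hl3, hl4⟩ := ih _ _ _ _ h2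
    have hw : prev ≤ Nat.mod code 256 := Nat.le_of_ble_eq_true h1
    have hj : Nat.mod (Nat.shiftRight code 8) 64 < 64 := Nat.mod_lt _ (by norm_num)
    have hwm : Nat.mod code 256 < m := h3
    refine ⟨by omega, (Nat.mod code 256, Nat.mod (Nat.shiftRight code 8) 64) :: l, ?_, ?_, ?_, ?_⟩
    · rw [List.length_cons, hl1]
    · rw [List.map_cons, List.pairwise_cons]
      refine ⟨?_, hl2⟩
      intro a ha
      obtain ⟨x, hx, hxa⟩ := List.mem_map.mp ha
      have := (hl3 x hx).1
      rw [← hxa]
      exact this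
    · intro x hx
      rcases List.mem_cons.mp hx with hx | hx
      · rw [hx]
        exact ⟨hw, hwm, hj⟩
      · obtain ⟨a1, a2, a3⟩ := hl3 x hx
        have a4 : Nat.succ (Nat.mod code 256) ≤ x.1 := a1
        exact ⟨by omega, a2, a3⟩
    · rw [List.map_cons, List.map_cons, List.sum_cons, List.sum_cons, ← Nat.add_assoc,
        ← Nat.add_assoc]
      exact hl4

theorem st_SUMA : ST_SUMA := by
  intro TT m n code prev K S f h
  exact (sumab_A TT m f n code prev K S h).2

theorem st_SUMB : ST_SUMB := by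
  intro TT m n
  induction n with
  | zero =>
    intro code b S f h
    unfold sumB at h
    refine ⟨[], ?_, ?_⟩
    · intro x hx
      simp at hx
    · simpa using h
  | succ n ih =>
    intro code b S f h
    unfold sumB at h
    obtain ⟨h1, h2⟩ := sumab_cond _ _ h
    obtain ⟨l, hl3, hl4⟩ := ih _ _ _ _ h2
    have hw : Nat.mod code 256 < m := Nat.le_of_ble_eq_true h1
    refine ⟨(Nat.mod code 256, Nat.mul 10000 (Nat.mod (Nat.shiftRight code 8) 65536)) :: l, ?_, ?_⟩
    · intro x hx
      rcases List.mem_cons.mp hx with hx | hx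
      · rw [hx]
        exact hw
      · exact hl3 x hx
    · rw [List.map_cons, List.map_cons, List.sum_cons, List.sum_cons, ← Nat.add_assoc,
        ← Nat.add_assoc]
      exact hl4

end Pool.Agent.Helper10.Qc
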