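import Pool.Agent.Helper10.Qc.Stmts

set_option autoImplicit false

/-!
# Module TAB: tangents
-/

namespace Pool.Agent.Helper10.Qc

open Pool.Agent.Helper19.Qh Pool.Agent.Helper19.Qc

theorem tab_A : ∀ j < 64, 22850000 * 1562500 + 13586 * (400 + 13 * j) ^ 3 ≤
    10 * linA j * (400 + 13 * j) ^ 2 + 39832500 * (400 + 13 * j) ^ 2 := by
  decide +kernel

theorem tab_I : ∀ j < 64, 10000 * linI j * (400 + 13 * j) + 67739062500 * (400 + 13 * j) ≤
    71406250000000 + 6793 * (400 + 13 * j) ^ 3 := by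
  decide +kernel

theorem tab_64 : linA 64 = 0 ∧ linI 64 = 0 := by
  decide +kernel

/-- the tangent at `a` -/
theorem tab_key (a x A I : ℝ) (ha : 0 < a) (ha2 : a ≤ 5 / 4) (hx : 0 < x) (hx2 : x ≤ 5 / 4)
    (hA : 2285000 * (25 / 16) + 1358600 * a ^ 3 ≤ A * a ^ 2 + 3983250 * a ^ 2)
    (hI : I * a + 27095625 / 4 * a ≤ 7140625 + 679300 * a ^ 3) :
    (I - A * x) / 10 ^ 6 ≤ (2285 / 1000 / x - 6793 / 10000) * (5 / 4 - x) ^ 2 := by
  have hA2 : 2285000 * (25 / 16) / a ^ 2 + 1358600 * a - 3983250 ≤ A := by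
    have h1 : (2285000 * (25 / 16) / a ^ 2 + 1358600 * a - 3983250) * a ^ 2 ≤ A * a ^ 2 := by
      have e : (2285000 * (25 / 16) / a ^ 2 + 1358600 * a - 3983250) * a ^ 2 =
          2285000 * (25 / 16) + 1358600 * a ^ 3 - 3983250 * a ^ 2 := by
        field_simp
      rw [e]
      linarith
    exact le_of_mul_le_mul_right h1 (by positivity)
  have hI2 : I ≤ 7140625 / a + 679300 * a ^ 2 - 27095625 / 4 := by
    have h1 : I * a ≤ (7140625 / a + 679300 * a ^ 2 - 27095625 / 4) * a := by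
      have e : (7140625 / a + 679300 * a ^ 2 - 27095625 / 4) * a =
          7140625 + 679300 * a ^ 3 - 27095625 / 4 * a := by
        field_simp
      rw [e]
      linarith
    exact le_of_mul_le_mul_right h1 ha
  have h3 : (2285000 * (25 / 16) / a ^ 2 + 1358600 * a - 3983250) * x ≤ A * x :=
    mul_le_mul_of_nonneg_right hA2 hx.le
  have key : (2285 / 1000 / x - 6793 / 10000) * (5 / 4 - x) ^ 2 -
      ((7140625 / a + 679300 * a ^ 2 - 27095625 / 4) -
        (2285000 * (25 / 16) / a ^ 2 + 1358600 * a - 3983250) * x) / 10 ^ 6 =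
      (x - a) ^ 2 * (2285 / 1000 * (25 / 16) / (x * a ^ 2) - 6793 / 10000) := by
    field_simp
    ring
  have h4 : 6793 / 10000 ≤ 2285 / 1000 * (25 / 16) / (x * a ^ 2) := by
    rw [le_div_iff₀ (by positivity)]
    have h5 : x * a ^ 2 ≤ 5 / 4 * (5 / 4) ^ 2 := by
      apply mul_le_mul hx2 _ (by positivity) (by norm_num)
      exact pow_le_pow_left₀ ha.le ha2 2
    nlinarith
  have h6 : 0 ≤ (x - a) ^ 2 * (2285 / 1000 * (25 / 16) / (x * a ^ 2) - 6793 / 10000) :=
    mul_nonneg (sq_nonneg _) (by linarith)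
  have h7 : (I - A * x) / 10 ^ 6 ≤ ((7140625 / a + 679300 * a ^ 2 - 27095625 / 4) -
        (2285000 * (25 / 16) / a ^ 2 + 1358600 * a - 3983250) * x) / 10 ^ 6 := by
    apply div_le_div_of_nonneg_right _ (by norm_num)
    linarith
  linarith

theorem st_TAB : ST_TAB := by
  intro j hj x hx
  rcases Nat.lt_or_ge j 64 with hj2 | hj2
  · obtain ⟨a, ha⟩ : ∃ a : ℝ, a = (400 + 13 * (j : ℝ)) / 1000 := ⟨_, rfl⟩
    have hj3 : (j : ℝ) ≤ 63 := by exact_mod_cast (by omega : j ≤ 63)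
    have hj0 : (0 : ℝ) ≤ j := Nat.cast_nonneg j
    have ha0 : 0 < a := by
      rw [ha]
      positivity
    have ha1 : a ≤ 5 / 4 := by
      rw [ha]
      linarith
    have hA : ((22850000 * 1562500 + 13586 * (400 + 13 * j) ^ 3 : ℕ) : ℝ) ≤
      ((10 * linA j * (400 + 13 * j) ^ 2 + 39832500 * (400 + 13 * j) ^ 2 : ℕ) : ℝ) := by
      exact_mod_cast tab_A j hj2
    have hI : ((10000 * linI j * (400 + 13 * j) + 67739062500 * (400 + 13 * j) : ℕ) : ℝ) ≤
      ((71406250000000 + 6793 * (400 + 13 * j) ^ 3 : ℕ) : ℝ) := by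
      exact_mod_cast tab_I j hj2
    push_cast at hA hI
    have hm : (400 + 13 * (j : ℝ)) = 1000 * a := by
      rw [ha]
      ring
    rw [hm] at hA hI
    have hA' : 2285000 * (25 / 16) + 1358600 * a ^ 3 ≤ (linA j : ℝ) * a ^ 2 + 3983250 * a ^ 2 := by
      nlinarith
    have hI' : (linI j : ℝ) * a + 27095625 / 4 * a ≤ 7140625 + 679300 * a ^ 3 := by
      nlinarith
    unfold phL
    split_ifs with hx2
    · exact tab_key a x _ _ ha0 ha1 hx hx2 hA' hI'
    · have h1 := tab_key a (5 / 4) _ _ ha0 ha1 (by norm_num) le_rfl hA' hI'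
      have h2 : (2285 / 1000 / (5 / 4) - 6793 / 10000) * (5 / 4 - 5 / 4) ^ 2 = (0 : ℝ) := by
        norm_num
      rw [h2] at h1
      have h3 : (linA j : ℝ) * (5 / 4) ≤ linA j * x :=
        mul_le_mul_of_nonneg_left (not_le.mp hx2).le (Nat.cast_nonneg _)
      have h4 : ((linI j : ℝ) - linA j * x) / 10 ^ 6 ≤ ((linI j : ℝ) - linA j * (5 / 4)) / 10 ^ 6 := by
        apply div_le_div_of_nonneg_right _ (by norm_num)
        linarith
      linarith
  · have e : j = 64 := by omega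
    rw [e, tab_64.1, tab_64.2]
    unfold phL
    split_ifs with hx2
    · have h1 : 6793 / 10000 ≤ 2285 / 1000 / x := by
        rw [le_div_iff₀ hx]
        linarith
      have h2 : 0 ≤ (2285 / 1000 / x - 6793 / 10000) * (5 / 4 - x) ^ 2 :=
        mul_nonneg (by linarith) (sq_nonneg _)
      simpa using h2
    · simp

end Pool.Agent.Helper10.Qc
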