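import Pool.Agent.Helper10.Qc.Stmts

set_option autoImplicit false

/-!
# Module UB: the check of a box, in terms of the positions
-/

namespace Pool.Agent.Helper10.Qc

open Pool.Agent.Helper19.Qh Pool.Agent.Helper19.Qc

theorem ub_force {α : Type} (n : ℕ) (f : ℕ → α) : force n f = f n := by
  cases n <;> rfl

theorem ub_cond (b c : Bool) (h : cond b c false = true) : b = true ∧ c = true := by
  cases b
  · exact absurd h (by simp)
  · exact ⟨rfl, h⟩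

theorem ub_mkE (z0 z1 z2 z3 c : ℕ) : mkE z0 z1 z2 z3 c =
    ⟨d32 c 0, (8 * d32 c 1 + 24) - 3 * z0, (8 * d32 c 2 + 24) - 3 * z1,
      (8 * d32 c 3 + 24) - 3 * z2, (8 * d32 c 4 + 24) - 3 * z3,
      64 * nsq ((8 * d32 c 1 + 24) - 3 * z0) ((8 * d32 c 2 + 24) - 3 * z1)
        ((8 * d32 c 3 + 24) - 3 * z2) ((8 * d32 c 4 + 24) - 3 * z3) 128 +
      384 * s4 ((8 * d32 c 1 + 24) - 3 * z0) ((8 * d32 c 2 + 24) - 3 * z1)
        ((8 * d32 c 3 + 24) - 3 * z2) ((8 * d32 c 4 + 24) - 3 * z3)⟩ := by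
  unfold mkE
  rw [ub_force, ub_force, ub_force, ub_force, ub_force]
  rfl

theorem ub_okE (z0 z1 z2 z3 c : ℕ) (h : okE z0 z1 z2 z3 c = true) :
    3 * z0 ≤ 8 * d32 c 1 + 24 ∧ 3 * z1 ≤ 8 * d32 c 2 + 24 ∧ 3 * z2 ≤ 8 * d32 c 3 + 24 ∧
    3 * z3 ≤ 8 * d32 c 4 + 24 := by
  unfold okE at h
  obtain ⟨h1, h⟩ := ub_cond _ _ h
  obtain ⟨h2, h⟩ := ub_cond _ _ h
  obtain ⟨h3, h4⟩ := ub_cond _ _ h
  exact ⟨Nat.le_of_ble_eq_true h1, Nat.le_of_ble_eq_true h2, Nat.le_of_ble_eq_true h3,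
    Nat.le_of_ble_eq_true h4⟩

theorem ub_mkL (z0 z1 z2 z3 : ℕ) (W : List ℕ) : mkL z0 z1 z2 z3 W = W.map (mkE z0 z1 z2 z3) := by
  induction W with
  | nil => rfl
  | cons c l ih =>
    rw [List.map_cons, ← ih]
    rfl

theorem ub_okL (z0 z1 z2 z3 : ℕ) (W : List ℕ) (h : okL z0 z1 z2 z3 W = true) :
    ∀ c ∈ W, okE z0 z1 z2 z3 c = true := by
  induction W with
  | nil =>
    intro c hc
    simp at hc
  | cons c l ih =>
    unfold okL at h
    obtain ⟨h1, h2⟩ := ub_cond _ _ h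
    intro c' hc'
    rcases List.mem_cons.mp hc' with h3 | h3
    · rw [h3]
      exact h1
    · exact ih h2 c' h3

theorem ub_good (z0 z1 z2 z3 c : ℕ) : GoodE (mkE z0 z1 z2 z3 c) := by
  rw [ub_mkE]
  unfold GoodE
  dsimp only
  have e : ∀ a b c d : ℕ, s4 a b c d = a + b + c + d := by
    intro a b c d
    show (a + b) + (c + d) = a + b + c + d
    ring
  rw [e]

/-- the radius in the coordinates -/
theorem ub_x (z0 z1 z2 z3 c : ℕ) (hc : okE z0 z1 z2 z3 c = true) (e : Fin 4 → ℝ) (h : ℝ) :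
    xU (mkE z0 z1 z2 z3 c) e (512 * (h + ((e 0 - 64) ^ 2 + (e 1 - 64) ^ 2 + (e 2 - 64) ^ 2 +
      (e 3 - 64) ^ 2) / 1048576)) / (sS : ℝ) = Bv (d32 c 0) h (zE z0 z1 z2 z3 e) (bet c) := by
  obtain ⟨h1, h2, h3, h4⟩ := ub_okE z0 z1 z2 z3 c hc
  rw [ub_mkE]
  unfold xU tU hU Bv
  dsimp only
  rw [q_norm_sq]
  have hS : (sS : ℝ) = 86973087744 := by
    unfold sS
    norm_num
  rw [hS, Nat.cast_sub h1, Nat.cast_sub h2, Nat.cast_sub h3, Nat.cast_sub h4]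
  simp only [Quaternion.re_sub, Quaternion.imI_sub, Quaternion.imJ_sub, Quaternion.imK_sub]
  unfold zE bet
  dsimp only
  push_cast
  ring

theorem st_UB (hUT : ST_UT) : ST_UB := by
  intro z0 z1 z2 z3 t hz0 hz1 hz2 hz3 hchk h ζ hh1 hh5 hDom hRed he
  obtain ⟨e, he1, he2⟩ := he
  unfold chkBoxU at hchk
  obtain ⟨hok, hchk⟩ := ub_cond _ _ hchk
  have hok' := ub_okL z0 z1 z2 z3 WU hok
  have hgood : ∀ n ∈ mkL z0 z1 z2 z3 WU, GoodE n := by
    intro n hn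
    rw [ub_mkL] at hn
    obtain ⟨c, _, hc⟩ := List.mem_map.mp hn
    rw [← hc]
    exact ub_good z0 z1 z2 z3 c
  have hT := hUT z0 z1 z2 z3 t (mkL z0 z1 z2 z3 WU) 0 128 0 128 0 128 0 128 512 2569 hz0 hz1 hz2 hz3
    hgood (by norm_num) (by norm_num) (by norm_num) (by norm_num) (by norm_num) hchk
  have hsq : ∀ i, (e i - 64) ^ 2 ≤ 4096 := by
    intro i
    obtain ⟨a1, a2⟩ := he1 i
    nlinarith
  obtain ⟨Y, hY⟩ : ∃ Y : ℝ, Y = 512 * (h + ((e 0 - 64) ^ 2 + (e 1 - 64) ^ 2 + (e 2 - 64) ^ 2 +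
      (e 3 - 64) ^ 2) / 1048576) := ⟨_, rfl⟩
  have hY1 : 512 ≤ Y := by
    rw [hY]
    have := sq_nonneg (e 0 - 64)
    have := sq_nonneg (e 1 - 64)
    have := sq_nonneg (e 2 - 64)
    have := sq_nonneg (e 3 - 64)
    linarith
  have hY2 : Y ≤ 2569 := by
    rw [hY]
    have := hsq 0
    have := hsq 1
    have := hsq 2
    have := hsq 3
    linarith
  have hhU : hU e Y / 2 ^ 22 = h := by
    rw [hY]
    unfold hU
    ring
  have hC := hT e Y ⟨⟨by simpa using (he1 0).1, by simpa using (he1 0).2⟩,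
    ⟨by simpa using (he1 1).1, by simpa using (he1 1).2⟩,
    ⟨by simpa using (he1 2).1, by simpa using (he1 2).2⟩,
    ⟨by simpa using (he1 3).1, by simpa using (he1 3).2⟩,
    ⟨by simpa using hY1, by simpa using hY2⟩⟩
  unfold ConcU at hC
  rw [hhU, he2] at hC
  have hfin := hC hDom hh1 hRed
  unfold SU at hfin
  have e1 : (25920 * hU e Y - (sS : ℝ)) / (sS : ℝ) = 5 / 4 * h - 1 := by
    have hS : (sS : ℝ) = 86973087744 := by
      unfold sS
      norm_num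
    have h3 : hU e Y = h * 2 ^ 22 := by
      rw [← hhU]
      field_simp
    rw [h3, hS]
    ring
  rw [e1, ub_mkL, List.map_map] at hfin
  have e2 : WU.map ((fun n => Psi n.n (xU n e Y / (sS : ℝ))) ∘ mkE z0 z1 z2 z3) =
      WU.map (fun c => Psi (d32 c 0) (Bv (d32 c 0) h ζ (bet c))) := by
    apply List.map_congr_left
    intro c hc
    have h5 := ub_x z0 z1 z2 z3 c (hok' c hc) e h
    rw [← hY, he2] at h5
    show Psi (mkE z0 z1 z2 z3 c).n (xU (mkE z0 z1 z2 z3 c) e Y / (sS : ℝ)) = _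
    rw [h5, ub_mkE]
  rw [e2] at hfin
  exact hfin

end Pool.Agent.Helper10.Qc
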